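import Pool.Agent.P8H24.PR.Stm
import Pool.Agent.P8H75.PG.Sol

/-!
# Package PAIR (after `Pool.Agent.P8H75.PG.Sol`, by helper75)
-/

set_option autoImplicit false

open scoped commutatorElement

namespace Pool.Agent.P8H24.PR

open Pool.Agent.P8H24.PG Pool.Agent.P8H75.PG

theorem pair : S_STEP → S_PAIR := by
  intro hstep S _ a b N l hN hl hle hcomm hab ha hb
  have main : ∀ i : ℕ, ∃ m : ℕ, 0 < m ∧ Group.IsNilpotent
      ((Subgroup.closure {a ^ m, b ^ m}).map (QuotientGroup.mk' (N i))) := by
    intro i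
    induction i with
    | zero =>
      obtain ⟨m, hm, hmg⟩ := hab
      refine ⟨m, hm, ?_⟩
      rw [MonoidHom.map_closure, Set.image_pair]
      have h1 : QuotientGroup.mk' (N 0) (b ^ m) = QuotientGroup.mk' (N 0) (a ^ m) := by
        symm
        rw [QuotientGroup.mk'_apply, QuotientGroup.mk'_apply, QuotientGroup.eq]
        exact hmg
      rw [h1]
      exact nil_cyclic _
    | succ i ih =>
      obtain ⟨m, hm, hnil⟩ := ih
      set π := QuotientGroup.mk' (N (i + 1)) with hπ
      set M := (N i).map π with hMdef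
      have hMn : M.Normal := (hN i).map π (QuotientGroup.mk'_surjective _)
      have hMc : ⁅M, M⁆ = ⊥ := by
        rw [hMdef, ← Subgroup.map_commutator, Subgroup.map_eq_bot_iff, hπ,
          QuotientGroup.ker_mk']
        exact hcomm i
      have hMab : ∀ x ∈ M, ∀ y ∈ M, x * y = y * x := by
        intro x hx y hy
        have h1 : ⁅x, y⁆ ∈ ⁅M, M⁆ := Subgroup.commutator_mem_commutator hx hy
        rw [hMc, Subgroup.mem_bot] at h1
        exact commutatorElement_eq_one_iff_mul_comm.mp h1
      have hU : ∀ c : S, (∀ i, ∀ x ∈ N i, ∃ m : ℕ, 0 < m ∧ ∃ k : ℕ,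
          (dd (c ^ m))^[k] x ∈ N (i + 1)) →
          ∀ x ∈ M, ∃ m' : ℕ, 0 < m' ∧ ∃ k : ℕ, (dd ((π c ^ m) ^ m'))^[k] x = 1 := by
        rintro c hc _ ⟨x, hx, rfl⟩
        obtain ⟨m', hm', k, hk⟩ := hc i x hx
        refine ⟨m', hm', k, ?_⟩
        have h1 : (dd (π c ^ m'))^[k] (π x) = 1 := by
          rw [← map_pow, ← dd_map, hπ, QuotientGroup.mk'_apply, QuotientGroup.eq_one_iff]
          exact hk
        rw [← pow_mul, mul_comm m m', pow_mul]
        exact dd_pow hMab _ m k ⟨x, hx, rfl⟩ h1
      have hnil' : Group.IsNilpotent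
          ((Subgroup.closure {π a ^ m, π b ^ m}).map (QuotientGroup.mk' M)) := by
        have h1 : N i ≤ ((QuotientGroup.mk' M).comp π).ker := by
          intro x hx
          rw [MonoidHom.mem_ker, MonoidHom.comp_apply, QuotientGroup.mk'_apply,
            QuotientGroup.eq_one_iff]
          exact ⟨x, hx, rfl⟩
        set ψ := QuotientGroup.lift (N i) ((QuotientGroup.mk' M).comp π) h1 with hψ
        have h2 : ψ.comp (QuotientGroup.mk' (N i)) = (QuotientGroup.mk' M).comp π := by
          ext x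
          rfl
        have h3 := nil_map _ ψ hnil
        rw [Subgroup.map_map, h2, ← Subgroup.map_map, MonoidHom.map_closure, Set.image_pair,
          map_pow, map_pow] at h3
        exact h3
      obtain ⟨m', hm', hres⟩ := hstep (S ⧸ N (i + 1)) M hMc (π a ^ m) (π b ^ m)
        (hU a ha) (hU b hb) hnil'
      refine ⟨m * m', Nat.mul_pos hm hm', ?_⟩
      rw [MonoidHom.map_closure, Set.image_pair]
      have e1 : ∀ c : S, QuotientGroup.mk' (N (i + 1)) (c ^ (m * m')) = (π c ^ m) ^ m' := by
        intro c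
        rw [map_pow, pow_mul]
      rw [e1, e1]
      exact hres
  obtain ⟨m, hm, hnil⟩ := main l
  refine ⟨m, hm, nil_of_map _ _ ?_ hnil⟩
  rw [← MonoidHom.ker_eq_bot_iff, QuotientGroup.ker_mk', hl]

end Pool.Agent.P8H24.PR
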