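import Pool.Agent.P8H24.PR.Rel1

/-!
# Package REL, second part (after `Pool.Agent.P8H72.RH.Rel`, by helper72)
-/

set_option autoImplicit false
set_option linter.unusedSectionVars false

namespace Pool.Agent.P8H24.PR

open Set Filter Topology MulAction
open scoped Pointwise commutatorElement
open Pool.Agent.W726.NS (ConvergenceAction Ep mem_Ep Ep_le_stabilizer)
open Pool.Agent.P8H72.RH (not_fin_pow not_fin_conj fix_le_two fix_three pow_fix inf_of_inf mem_NN NN
  AlmostDisj)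

variable {G : Type} [Group G]

/-- some powers lie in a torsion-free solvable subgroup -/
def Rl (h k : G) : Prop := ∃ Γ : Subgroup G, TFS Γ ∧ ∃ n : ℕ, 0 < n ∧ h ^ n ∈ Γ ∧ k ^ n ∈ Γ

lemma TFS.map_aut {Γ : Subgroup G} (h : TFS Γ) (σ : MulAut G) : TFS (σ • Γ) := by
  constructor
  · have e : Γ ≃* (σ • Γ : Subgroup G) := Subgroup.equivSMul σ Γ
    have := h.1
    exact Group.isSolvable_of_surjective (f := e.toMonoidHom) e.surjective
  · intro x hx hfin
    have h1 : σ⁻¹ x ∈ Γ := by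
      rw [Subgroup.mem_pointwise_smul_iff_inv_smul_mem] at hx
      exact hx
    have h2 : IsOfFinOrder (σ⁻¹ x) := MonoidHom.isOfFinOrder (MulEquiv.toMonoidHom σ⁻¹) hfin
    have h3 := h.2 _ h1 h2
    have h4 : σ (σ⁻¹ x) = x := MulAut.apply_inv_self G σ x
    rw [← h4, h3, map_one]

lemma Rl.map_aut {h k : G} (hr : Rl h k) (σ : MulAut G) : Rl (σ h) (σ k) := by
  obtain ⟨Γ, hΓ, n, hn, h1, h2⟩ := hr
  refine ⟨σ • Γ, hΓ.map_aut σ, n, hn, ?_, ?_⟩
  · rw [← map_pow]
    exact Subgroup.smul_mem_pointwise_smul (m := h ^ n) (a := σ) (S := Γ) h1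
  · rw [← map_pow]
    exact Subgroup.smul_mem_pointwise_smul (m := k ^ n) (a := σ) (S := Γ) h2

lemma Rl.map_iff {h k : G} (σ : MulAut G) : Rl (σ h) (σ k) ↔ Rl h k := by
  refine ⟨fun hr => ?_, fun hr => hr.map_aut σ⟩
  have := hr.map_aut σ⁻¹
  rwa [MulAut.inv_apply_self, MulAut.inv_apply_self] at this

lemma Rl.pow_iff {h k : G} {n : ℕ} (hn : 0 < n) : Rl (h ^ n) (k ^ n) ↔ Rl h k := by
  constructor
  · rintro ⟨Γ, hΓ, m, hm, h1, h2⟩
    exact ⟨Γ, hΓ, n * m, Nat.mul_pos hn hm, by rwa [pow_mul], by rwa [pow_mul]⟩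
  · rintro ⟨Γ, hΓ, m, hm, h1, h2⟩
    refine ⟨Γ, hΓ, m, hm, ?_, ?_⟩
    · rw [← pow_mul, mul_comm, pow_mul]; exact Γ.pow_mem h1 n
    · rw [← pow_mul, mul_comm, pow_mul]; exact Γ.pow_mem h2 n

lemma VTFS.pow {H : Subgroup G} (hH : VTFS H) {x y : G} (hx : x ∈ H) (hy : y ∈ H) : Rl x y := by
  obtain ⟨Γ, hle, hidx, hs, hT⟩ := hH
  obtain ⟨m, hm, -, h1⟩ := Subgroup.exists_pow_mem_of_relIndex_ne_zero hidx hx
  obtain ⟨n, hn, -, h2⟩ := Subgroup.exists_pow_mem_of_relIndex_ne_zero hidx hy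
  refine ⟨Γ, ⟨hs, hT⟩, m * n, Nat.mul_pos hm hn, ?_, ?_⟩
  · rw [pow_mul]; exact Γ.pow_mem h1.1 n
  · rw [mul_comm, pow_mul]; exact Γ.pow_mem h2.1 m

/-- an infinite subgroup contains an element of infinite order -/
lemma VTFS.exists_inf {H : Subgroup G} (hH : VTFS H) {S : Set G} (hS : S.Infinite)
    {K : Subgroup G} (hK : K ≤ H) (hSK : S ⊆ K) : ∃ x ∈ K, ¬ IsOfFinOrder x := by
  classical
  obtain ⟨Γ, hle, hidx, hs, hT⟩ := hH
  have hfi : (Γ.subgroupOf H).FiniteIndex := ⟨hidx⟩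
  have hfin : Finite (H ⧸ Γ.subgroupOf H) := Subgroup.finite_quotient_of_finiteIndex
  have hSi : Infinite S := hS.to_subtype
  obtain ⟨x, y, hxy, he⟩ := Finite.exists_ne_map_eq_of_infinite
    (fun s : S => (QuotientGroup.mk ⟨s.1, hK (hSK s.2)⟩ : H ⧸ Γ.subgroupOf H))
  have h1 : (⟨x.1, hK (hSK x.2)⟩ : H)⁻¹ * ⟨y.1, hK (hSK y.2)⟩ ∈ Γ.subgroupOf H :=
    QuotientGroup.eq.1 he
  have h2 : x.1⁻¹ * y.1 ∈ Γ := h1
  refine ⟨x.1⁻¹ * y.1, K.mul_mem (K.inv_mem (hSK x.2)) (hSK y.2), fun hf => ?_⟩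
  have h3 := hT _ h2 hf
  exact hxy (Subtype.ext (inv_mul_eq_one.mp h3))

variable {X : Type} [TopologicalSpace X] [CompactSpace X] [T2Space X] [MulAction G X]

/-- related elements of infinite order have powers with a common fixed point -/
lemma rl_point [Infinite X] (hG : ConvergenceAction G X) {h k : G} (hh : ¬ IsOfFinOrder h)
    (hr : Rl h k) : ∃ a : X, ∃ n : ℕ, 0 < n ∧ (h ^ n) • a = a ∧ (k ^ n) • a = a := by
  obtain ⟨Γ, ⟨hsol, htf⟩, n, hn, h1, h2⟩ := hr
  have hne : h ^ n ≠ 1 := fun h3 => not_fin_pow hh hn (by rw [h3]; exact IsOfFinOrder.one)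
  obtain ⟨B, hBΓ, hB, hab, hnorm⟩ := exists_ab hsol (fun h3 => hne (by
    have h4 : h ^ n ∈ Γ := h1
    rwa [h3, Subgroup.mem_bot] at h4))
  obtain ⟨z, hz, hz1⟩ := (Subgroup.ne_bot_iff_exists_ne_one).1 hB |>
    (fun ⟨z, hz⟩ => (⟨z.1, z.2, fun h5 => hz (Subtype.ext h5)⟩ : ∃ z : G, z ∈ B ∧ z ≠ 1))
  have hzi : ¬ IsOfFinOrder z := fun h5 => hz1 (htf _ (hBΓ hz) h5)
  obtain ⟨a, ha⟩ := Ep_le_stabilizer (X := X) hG z hzi
  have hBa : ∀ y ∈ B, y • a = a := by
    intro y hy
    have h6 : y ∈ Ep z := by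
      refine mem_Ep.2 ⟨1, one_pos, ?_⟩
      rw [pow_one]
      exact hab y hy z hz
    exact mem_stabilizer_iff.1 (ha h6)
  have hmv : ∀ x ∈ Γ, ∀ b : X, (∀ y ∈ B, y • b = b) → ∀ y ∈ B, y • (x • b) = x • b := by
    intro x hx b hb y hy
    have h7 := hnorm x⁻¹ (Γ.inv_mem hx) y hy
    rw [inv_inv] at h7
    have h8 := hb _ h7
    rw [mul_smul, mul_smul, inv_smul_eq_iff] at h8
    exact h8
  obtain ⟨c, d, hcd⟩ := fix_le_two (X := X) hG hzi
  have hsq : ∀ x ∈ Γ, (x ^ 2) • a = a := by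
    intro x hx
    have e2 : (x ^ 2) • a = x • (x • a) := by rw [pow_two, mul_smul]
    have p0 := hcd a (hBa z hz)
    have p1 := hcd (x • a) (hmv x hx a hBa z hz)
    have p2 := hcd (x • (x • a)) (hmv x hx _ (hmv x hx a hBa) z hz)
    rw [e2]
    by_cases e01 : x • a = a
    · rw [e01, e01]
    · by_cases e12 : x • (x • a) = x • a
      · exact absurd (smul_left_cancel x e12) e01
      · rcases p0 with q0 | q0 <;> rcases p1 with q1 | q1 <;> rcases p2 with q2 | q2
        · exact absurd (q1.trans q0.symm) e01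
        · exact absurd (q1.trans q0.symm) e01
        · exact q2.trans q0.symm
        · exact absurd (q2.trans q1.symm) e12
        · exact absurd (q2.trans q1.symm) e12
        · exact q2.trans q0.symm
        · exact absurd (q1.trans q0.symm) e01
        · exact absurd (q1.trans q0.symm) e01
  refine ⟨a, n * 2, by omega, ?_, ?_⟩
  · rw [pow_mul]; exact hsq _ h1
  · rw [pow_mul]; exact hsq _ h2

/-- **Point stabilisers with a common element of infinite order are equal.** -/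
theorem stb_le [Infinite X] (hG : ConvergenceAction G X) (hst : ∀ p : X, VTFS (stabilizer G p))
    {p q : X} (hpq : p ≠ q) {k : G} (hk : ¬ IsOfFinOrder k) (hp : k • p = p) (hq : k • q = q) :
    stabilizer G p ≤ stabilizer G q := by
  obtain ⟨Γ, hle, hidx, hsol, htf⟩ := hst p
  obtain ⟨j, hj, -, hkj⟩ := Subgroup.exists_pow_mem_of_relIndex_ne_zero hidx
    (mem_stabilizer_iff.2 hp)
  have hkj' : ¬ IsOfFinOrder (k ^ j) := not_fin_pow hk hj
  have hne : k ^ j ≠ 1 := fun h3 => hkj' (by rw [h3]; exact IsOfFinOrder.one)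
  obtain ⟨B, hBΓ, hB, hab, hnorm⟩ := exists_ab hsol (fun h3 => hne (by
    have h4 : k ^ j ∈ Γ := hkj.1
    rwa [h3, Subgroup.mem_bot] at h4))
  obtain ⟨z, hz, hz1⟩ := (Subgroup.ne_bot_iff_exists_ne_one).1 hB |>
    (fun ⟨z, hz⟩ => (⟨z.1, z.2, fun h5 => hz (Subtype.ext h5)⟩ : ∃ z : G, z ∈ B ∧ z ≠ 1))
  have hzi : ¬ IsOfFinOrder z := fun h5 => hz1 (htf _ (hBΓ hz) h5)
  have hΓp : ∀ x ∈ Γ, x • p = p := fun x hx => mem_stabilizer_iff.1 (hle hx)
  obtain ⟨r, hrp, hzr⟩ := fixB hG hpq hab (κ := k ^ j) (fun y hy => hnorm _ hkj.1 y hy)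
    (fun y hy => by
      have := hnorm _ (Γ.inv_mem hkj.1) y hy
      rwa [inv_inv] at this) hkj' (pow_fix hp j) (pow_fix hq j) hz (hΓp z (hBΓ hz))
  have hBr : ∀ y ∈ B, y • r = r := by
    intro y hy
    have h1 : z • (y • r) = y • r := by
      rw [← mul_smul, hab z hz y hy, mul_smul, hzr]
    rcases fix_three hG hzi (Ne.symm hrp) (hΓp z (hBΓ hz)) hzr h1 with h2 | h2
    · exact absurd (smul_left_cancel y (h2.trans (hΓp y (hBΓ hy)).symm)) hrp
    · exact h2
  have hΓr : ∀ x ∈ Γ, x • r = r := by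
    intro x hx
    have h1 : z • (x • r) = x • r := by
      have h7 := hnorm x⁻¹ (Γ.inv_mem hx) z hz
      rw [inv_inv] at h7
      have h8 := hBr _ h7
      rw [mul_smul, mul_smul, inv_smul_eq_iff] at h8
      exact h8
    rcases fix_three hG hzi (Ne.symm hrp) (hΓp z (hBΓ hz)) hzr h1 with h2 | h2
    · exact absurd (smul_left_cancel x (h2.trans (hΓp x hx).symm)) hrp
    · exact h2
  have hrq : r = q := by
    rcases fix_three hG hkj' hpq (pow_fix hp j) (pow_fix hq j) (hΓr _ hkj.1) with h2 | h2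
    · exact absurd h2 hrp
    · exact h2
  subst hrq
  intro g hg
  have hgp : g • p = p := mem_stabilizer_iff.1 hg
  have hw : g * z * g⁻¹ ∈ stabilizer G p := by
    rw [mem_stabilizer_iff, mul_smul, mul_smul]
    have h1 : g⁻¹ • p = p := by rw [inv_smul_eq_iff, hgp]
    rw [h1, hΓp z (hBΓ hz), hgp]
  obtain ⟨m, hm, -, hwm⟩ := Subgroup.exists_pow_mem_of_relIndex_ne_zero hidx hw
  set w : G := (g * z * g⁻¹) ^ m with hwdef
  have hwp : w • p = p := hΓp w hwm.1
  have hwinf : ¬ IsOfFinOrder w := not_fin_pow (not_fin_conj hzi g) hm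
  have hwq : w • r = r := hΓr w hwm.1
  have hwgq : w • (g • r) = g • r := by
    have h1 : w = g * z ^ m * g⁻¹ := by rw [hwdef, conj_pow]
    rw [h1, mul_smul, mul_smul, inv_smul_smul, pow_fix hzr]
  rw [mem_stabilizer_iff]
  rcases fix_three hG hwinf (Ne.symm hrp) hwp hwq hwgq with h2 | h2
  · exfalso
    have h3 : g • r = g • p := by rw [h2, hgp]
    exact hrp (smul_left_cancel g h3)
  · exact h2

theorem stb_eq [Infinite X] (hG : ConvergenceAction G X) (hst : ∀ p : X, VTFS (stabilizer G p))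
    {p q : X} {k : G} (hk : ¬ IsOfFinOrder k) (hp : k • p = p) (hq : k • q = q) :
    stabilizer G p = stabilizer G q := by
  by_cases hpq : p = q
  · rw [hpq]
  exact le_antisymm (stb_le hG hst hpq hk hp hq) (stb_le hG hst (Ne.symm hpq) hk hq hp)

/-- **An algebraic description of the normaliser.** -/
theorem mem_iff_rl [Infinite X] (hG : ConvergenceAction G X)
    (hst : ∀ p : X, VTFS (stabilizer G p)) {a : X} {h : G} (hh : ¬ IsOfFinOrder h)
    (ha : h • a = a) (g : G) : g ∈ Nst G a ↔ Rl (g * h * g⁻¹) h := by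
  show g ∈ NN G a ↔ _
  rw [mem_NN]
  constructor
  · intro he
    refine (hst a).pow ?_ (mem_stabilizer_iff.2 ha)
    rw [← he, mem_stabilizer_iff, mul_smul, mul_smul, inv_smul_smul, ha]
  · intro hr
    obtain ⟨b, n, hn, h1, h2⟩ := rl_point (X := X) hG (not_fin_conj hh g) hr
    have e1 : stabilizer G a = stabilizer G b :=
      stb_eq hG hst (not_fin_pow hh hn) (pow_fix ha n) h2
    have e2 : stabilizer G (g • a) = stabilizer G b := by
      refine stb_eq hG hst (not_fin_pow (not_fin_conj hh g) hn) ?_ h1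
      rw [conj_pow, mul_smul, mul_smul, inv_smul_smul, pow_fix ha]
    rw [e1, e2]

lemma exists_inf_stb (hst : ∀ p : X, VTFS (stabilizer G p)) {a : X}
    (ha : (stabilizer G a : Set G).Infinite) : ∃ h : G, ¬ IsOfFinOrder h ∧ h • a = a := by
  obtain ⟨x, hx, hxi⟩ := (hst a).exists_inf ha (K := stabilizer G a) le_rfl subset_rfl
  exact ⟨x, hxi, mem_stabilizer_iff.1 hx⟩

theorem fm_rel [Infinite X] (hG : ConvergenceAction G X) (hst : ∀ p : X, VTFS (stabilizer G p))
    {E : Subgroup G} (hE : E ∈ Fam G X) :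
    ∃ h : G, ¬ IsOfFinOrder h ∧ ∀ g, g ∈ E ↔ Rl (g * h * g⁻¹) h := by
  obtain ⟨a, ha, rfl⟩ := hE
  obtain ⟨h, hh, hha⟩ := exists_inf_stb hst ha
  exact ⟨h, hh, mem_iff_rl hG hst hh hha⟩

theorem fm_of_rel [Infinite X] (hG : ConvergenceAction G X)
    (hst : ∀ p : X, VTFS (stabilizer G p)) {E : Subgroup G} {h : G} (hh : ¬ IsOfFinOrder h)
    (hr : Rl h h) (hE : ∀ g, g ∈ E ↔ Rl (g * h * g⁻¹) h) : E ∈ Fam G X := by
  obtain ⟨b, n, hn, h1, -⟩ := rl_point (X := X) hG hh hr
  refine ⟨b, inf_of_inf (not_fin_pow hh hn) h1, ?_⟩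
  ext g
  rw [hE, mem_iff_rl hG hst (not_fin_pow hh hn) h1, ← conj_pow, Rl.pow_iff hn]

theorem fm_smul [Infinite X] (hG : ConvergenceAction G X)
    (hst : ∀ p : X, VTFS (stabilizer G p)) (σ : MulAut G) :
    ∀ E ∈ Fam G X, σ • E ∈ Fam G X := by
  rintro E ⟨a, ha, rfl⟩
  obtain ⟨h, hh, hha⟩ := exists_inf_stb hst ha
  have hσh : ¬ IsOfFinOrder (σ h) := by
    intro hf
    apply hh
    have : IsOfFinOrder (σ⁻¹ (σ h)) := MonoidHom.isOfFinOrder (MulEquiv.toMonoidHom σ⁻¹) hf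
    rwa [MulAut.inv_apply_self] at this
  have hself : Rl h h := (hst a).pow (mem_stabilizer_iff.2 hha) (mem_stabilizer_iff.2 hha)
  refine fm_of_rel hG hst hσh (hself.map_aut σ) fun g => ?_
  rw [Subgroup.mem_pointwise_smul_iff_inv_smul_mem]
  show σ⁻¹ g ∈ Nst G a ↔ _
  rw [mem_iff_rl hG hst hh hha, ← Rl.map_iff σ, map_mul, map_mul, map_inv,
    MulAut.apply_inv_self]

theorem fm_countable [Infinite X] [Countable G] (hG : ConvergenceAction G X)
    (hst : ∀ p : X, VTFS (stabilizer G p)) : (Fam G X).Countable := by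
  classical
  choose h hh using fun E : Fam G X => fm_rel hG hst E.2
  have hinj : Function.Injective h := by
    intro E E' he
    apply Subtype.ext
    ext g
    rw [(hh E).2, (hh E').2, he]
  exact Set.countable_coe_iff.1 hinj.countable

theorem fin_pts (hG : ConvergenceAction G X) (hst : ∀ p : X, VTFS (stabilizer G p)) (c : X)
    (hc : (stabilizer G c : Set G).Infinite) :
    {p : X | stabilizer G p = stabilizer G c}.Finite := by
  obtain ⟨h, hh, hhc⟩ := exists_inf_stb hst hc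
  obtain ⟨x, y, hxy⟩ := fix_le_two hG hh
  refine (Set.toFinite ({x, y} : Set X)).subset ?_
  intro p hp
  have h1 : h ∈ stabilizer G p := by
    rw [show stabilizer G p = stabilizer G c from hp]
    exact mem_stabilizer_iff.2 hhc
  rcases hxy p (mem_stabilizer_iff.1 h1) with h2 | h2
  · exact Or.inl h2
  · exact Or.inr h2

theorem fm_disj [Infinite X] (hG : ConvergenceAction G X) (hst : ∀ p : X, VTFS (stabilizer G p)) :
    AlmostDisj (Fam G X) := by
  classical
  rintro E ⟨a, ha, rfl⟩ E' ⟨b, hb, rfl⟩ hinf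
  have hA := fin_pts hG hst a ha
  have hB := fin_pts hG hst b hb
  set S : Set G := ((Nst G a : Subgroup G) : Set G) ∩ (Nst G b : Subgroup G) with hSdef
  have hmaps : Set.MapsTo (fun g : G => ((g • a, g • b) : X × X)) S
      ({p : X | stabilizer G p = stabilizer G a} ×ˢ {p : X | stabilizer G p = stabilizer G b}) := by
    rintro g ⟨h1, h2⟩
    exact ⟨(mem_NN (a := a)).1 h1, (mem_NN (a := b)).1 h2⟩
  obtain ⟨⟨p, q⟩, hpq⟩ : ∃ pq : X × X,
      (S ∩ (fun g : G => ((g • a, g • b) : X × X)) ⁻¹' {pq}).Infinite := by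
    by_contra hcon
    apply hinf
    refine ((hA.prod hB).biUnion (fun pq _ => Set.not_infinite.1 (not_exists.1 hcon pq))).subset ?_
    intro g hg
    rw [Set.mem_iUnion₂]
    exact ⟨(g • a, g • b), hmaps hg, hg, rfl⟩
  obtain ⟨g0, hg0⟩ := hpq.nonempty
  have hg1 : g0 • a = p ∧ g0 • b = q := by
    have := hg0.2
    simpa using this
  have hinf2 : ((fun g : G => g0⁻¹ * g) '' (S ∩ (fun g : G => ((g • a, g • b) : X × X)) ⁻¹'
      {(p, q)})).Infinite := hpq.image (fun x _ y _ hxy => mul_left_cancel hxy)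
  obtain ⟨k, hk, hki⟩ := (hst a).exists_inf hinf2 (K := stabilizer G a ⊓ stabilizer G b)
    inf_le_left (by
      rintro _ ⟨g, ⟨-, hg⟩, rfl⟩
      have hg' : g • a = p ∧ g • b = q := by simpa using hg
      refine ⟨?_, ?_⟩
      · show g0⁻¹ * g ∈ stabilizer G a
        rw [mem_stabilizer_iff, mul_smul, hg'.1, ← hg1.1, inv_smul_smul]
      · show g0⁻¹ * g ∈ stabilizer G b
        rw [mem_stabilizer_iff, mul_smul, hg'.2, ← hg1.2, inv_smul_smul])
  have e := stb_eq hG hst hki (mem_stabilizer_iff.1 hk.1) (mem_stabilizer_iff.1 hk.2)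
  rw [Nst, Nst, e]

theorem fm_sol [Infinite X] (hG : ConvergenceAction G X) (hst : ∀ p : X, VTFS (stabilizer G p))
    {E : Subgroup G} (hE : E ∈ Fam G X) : VSol E := by
  classical
  obtain ⟨a, ha, rfl⟩ := hE
  obtain ⟨Γ, hle, hidx, hsol, -⟩ := hst a
  have hA := fin_pts hG hst a ha
  have hind : (stabilizer G a).relIndex (Nst G a) ≠ 0 := by
    have hfin : Finite {p : X | stabilizer G p = stabilizer G a} := hA.to_subtype
    have : Finite (Nst G a ⧸ (stabilizer G a).subgroupOf (Nst G a)) := by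
      refine Finite.of_injective (β := {p : X | stabilizer G p = stabilizer G a})
        (Quotient.lift (fun g : Nst G a => (⟨(g : G) • a, (mem_NN (a := a)).1 g.2⟩ :
          {p : X | stabilizer G p = stabilizer G a})) ?_) ?_
      · intro g h hgh
        have h1 : g⁻¹ * h ∈ (stabilizer G a).subgroupOf (Nst G a) := QuotientGroup.leftRel_apply.1 hgh
        have h2 : ((g : G)⁻¹ * (h : G)) • a = a := h1
        apply Subtype.ext
        show (g : G) • a = (h : G) • a
        rw [mul_smul, inv_smul_eq_iff] at h2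
        exact h2.symm
      · intro g h
        induction g using QuotientGroup.induction_on with | H g => ?_
        induction h using QuotientGroup.induction_on with | H h => ?_
        intro hgh
        have h1 : (g : G) • a = (h : G) • a := congrArg Subtype.val hgh
        rw [QuotientGroup.eq]
        show ((g : G)⁻¹ * (h : G)) • a = a
        rw [mul_smul, ← h1, inv_smul_smul]
    exact Subgroup.index_ne_zero_of_finite
  refine ⟨Γ, hle.trans Subgroup.le_normalizer, ?_, hsol⟩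
  have h1 := Subgroup.relIndex_mul_relIndex Γ (stabilizer G a) (Nst G a) hle Subgroup.le_normalizer
  rw [← h1]
  exact Nat.mul_ne_zero hidx hind

theorem rel : S_REL := by
  intro G _ _ X _ _ _ _ _ hG hst
  exact ⟨fm_disj hG hst, fm_countable hG hst, fun σ => fm_smul hG hst σ, fun E hE => fm_sol hG hst hE⟩

end Pool.Agent.P8H24.PR
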