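import Pool.Agent.P8H24.PR.Asm
import Pool.Agent.P8H24.PR.Rel2
import Pool.Agent.P8H24.PR.Pair
import Pool.Agent.P8H24.PG.All
import Pool.Agent.P8H4.PR.Fol
import Pool.Agent.P8H76.PR.Vec
import Pool.Agent.P8H78.PR.Nfr
import Pool.Agent.P8H94.PR.Ret

/-!
# Project PR: all packages together
-/

set_option autoImplicit false

namespace Pool.Agent.P8H24.PR

theorem all_pair : S_PAIR :=
  pair (Pool.Agent.P8H94.PG.step Pool.Agent.P8H48.PG.act Pool.Agent.P8H44.PG.ext)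

theorem all_ret {A G : Type} [CStarAlgebra A] [Group G] [Countable G] {X : Type}
    [TopologicalSpace X] [CompactSpace X] [T2Space X] [MulAction G X]
    {u : G → A} {τ : A →L[ℂ] ℂ} (hu : Pool.Agent.W726.NS.RedAlg u τ)
    (hmul : ∀ g h, u (g * h) = u g * u h) {Y : Type} [NormedAddCommGroup Y]
    [NormedSpace ℂ Y] (π : A →L[ℂ] Y) (hπ : ∀ a, ‖π a‖ = ‖a‖) (σ : MulAut G) (α : A →⋆ₐ[ℂ] A)
    (hα : ∀ g, ∃ c : ℂ, ‖c‖ = 1 ∧ α (u g) = c • u (σ g))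
    (hLR : ∀ g, Pool.Agent.P8H24.PG.LowRank π α (u g)) (hsol : ∀ E ∈ Fam G X, VSol E) :
    Ret X σ :=
  ret_of (Pool.Agent.P8H78.PR.nfr Pool.Agent.P8H4.PR.fol Pool.Agent.P8H76.PR.vec)
    (Pool.Agent.P8H78.PR.nfr2 Pool.Agent.P8H4.PR.fol Pool.Agent.P8H76.PR.vec)
    Pool.Agent.P8H24.PG.all_di (Pool.Agent.P8H94.PR.ret all_pair) hu hmul π hπ σ α hα hLR hsol

end Pool.Agent.P8H24.PR
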