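import Pool.Agent.P8H24.PR.Lqr
import Pool.Agent.P8H72.RH.Main

/-!
# Project PR: assembly
-/

set_option autoImplicit false
set_option linter.unusedSectionVars false

open Finset Filter Topology MulAction
open scoped Pointwise

namespace Pool.Agent.P8H24.PR

open Pool.Agent.Helper188.NCM (norm_unitary_le iter_smul)
open Pool.Agent.W726.NS (ConvergenceAction RedAlg sparse_norm)
open Pool.Agent.P8H24.NU (Proj proj_orb NT dm itm itm_apply Ds)
open Pool.Agent.H379R3.CS
open Pool.Agent.P8H72.RH (Mx sp_of_blocks dich AlmostDisj)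

theorem iter_aut {G : Type} [Group G] (σ : MulAut G) (n : ℕ) (x : G) :
    ((σ.toMonoidHom : G →* G)^[n]) x = (σ ^ n) x := by
  induction n with
  | zero => rfl
  | succ n ih =>
    rw [Function.iterate_succ_apply', ih, pow_succ', MulAut.mul_apply]
    rfl

theorem dm_eq {G : Type} [Group G] (σ : MulAut G) (q : ℕ) :
    dm (itm (σ.toMonoidHom : G →* G) q) = df σ q := by
  funext x
  rw [dm, itm_apply, iter_aut]
  rfl

/-- nilpotent type -/
def NTf {G : Type} [Group G] (σ : MulAut G) (g : G) : Prop :=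
  ∃ q : ℕ, 0 < q ∧ (∃ k : ℕ, (df σ q)^[k] g = 1) ∧
    Group.IsVirtuallyNilpotent (Subgroup.closure {x : G | ∃ i : ℕ, x = (df σ q)^[i + 1] g})

theorem NTf.nt {G : Type} [Group G] {σ : MulAut G} {g : G} (h : NTf σ g) :
    NT (σ.toMonoidHom : G →* G) g := by
  obtain ⟨q, hq, hk, hn⟩ := h
  refine ⟨q, hq, ?_, ?_⟩
  · rw [dm_eq]
    exact hk
  · have : Ds (itm (σ.toMonoidHom : G →* G) q) g = {x : G | ∃ i : ℕ, x = (df σ q)^[i + 1] g} := by
      rw [Ds, dm_eq]
    rw [this]
    exact hn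

theorem NTf.of_nt {G : Type} [Group G] {σ : MulAut G} {g : G}
    (h : NT (σ.toMonoidHom : G →* G) g) : NTf σ g := by
  obtain ⟨q, hq, hk, hn⟩ := h
  rw [dm_eq] at hk
  have : Ds (itm (σ.toMonoidHom : G →* G) q) g = {x : G | ∃ i : ℕ, x = (df σ q)^[i + 1] g} := by
    rw [Ds, dm_eq]
  rw [this] at hn
  exact ⟨q, hq, hk, hn⟩

variable {A G : Type} [CStarAlgebra A] [Group G] [Countable G] {X : Type} [TopologicalSpace X]
  [CompactSpace X] [T2Space X] [MulAction G X]

/-- `σ` is of nilpotent type on its returns to the members of the family -/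
def Ret (X : Type) [MulAction G X] (σ : MulAut G) : Prop :=
  ∀ E ∈ Fam G X, ∀ m : ℕ, 0 < m → (∀ x, (σ ^ m) x ∈ E ↔ x ∈ E) → ∀ g, g⁻¹ * (σ ^ m) g ∈ E →
    NTf σ g

theorem mx_ret {u : G → A} {τ : A →L[ℂ] ℂ} (hu : RedAlg u τ) (hG : ConvergenceAction G X)
    [Infinite X] (hdisj : AlmostDisj (Fam G X)) (hcount : (Fam G X).Countable)
    (hinv : ∀ (σ : MulAut G), ∀ E ∈ Fam G X, σ • E ∈ Fam G X) (σ : MulAut G) (hσ : Ret X σ)
    (α : A →⋆ₐ[ℂ] A) (hα : ∀ g, ∃ c : ℂ, ‖c‖ = 1 ∧ α (u g) = c • u (σ g)) (g : G) :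
    Mx α (u g) := by
  classical
  have hit : ∀ (n : ℕ) (g : G), ∃ c : ℂ, ‖c‖ = 1 ∧ (α^[n]) (u g) = c • u ((σ ^ n) g) := by
    intro n
    induction n with
    | zero => intro g; exact ⟨1, by simp, by simp⟩
    | succ n ih =>
      intro g
      obtain ⟨c, hc, h1⟩ := hα g
      obtain ⟨c', hc', h2⟩ := ih (σ g)
      refine ⟨c * c', by rw [norm_mul, hc, hc', one_mul], ?_⟩
      rw [Function.iterate_succ_apply, h1, iter_smul, h2, smul_smul, pow_succ, MulAut.mul_apply]
  have hP : Proj u (σ.toMonoidHom : G →* G) α := ⟨hu.unit, hu.mul, hα⟩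
  by_cases hinj : Function.Injective (fun n : ℕ => (σ ^ n) g)
  · rcases dich hdisj hcount σ (hinv σ) (hinv σ⁻¹) g hinj with ⟨S, hS, hSf⟩ | ⟨m, hm, E, hE, hEm, hgE⟩
    · refine Or.inr (sp_of_blocks α (u g) (norm_unitary_le (hu.unit g)) fun M => ?_)
      have hSi : Infinite S := hS.to_subtype
      let e : ℕ ↪o ℕ := Nat.orderEmbeddingOfSet S
      have heS : ∀ n, e n ∈ S := fun n => by
        have : e n ∈ Set.range (Nat.orderEmbeddingOfSet S) := ⟨n, rfl⟩
        rwa [Nat.orderEmbeddingOfSet_range] at this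
      obtain ⟨o⟩ : Nonempty X := inferInstance
      have hxinj : Function.Injective (fun k => (σ ^ (e k)) g) :=
        fun a b hab => e.injective (hinj hab)
      obtain ⟨n, -, hn⟩ := sparse_norm hG o (fun k => (σ ^ (e k)) g) hxinj (by
          intro p q
          by_cases hne : ∃ k0, ((σ ^ (e k0)) g) • p = q
          · obtain ⟨k0, hk0⟩ := hne
            have hcos : ∀ k, ((σ ^ (e k)) g) • p = q →
                ((σ ^ (e k0)) g)⁻¹ * (σ ^ (e k)) g ∈ stabilizer G p := by
              intro k hk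
              rw [MulAction.mem_stabilizer_iff, mul_smul, hk, ← hk0, inv_smul_smul]
            by_cases hfin : (stabilizer G p : Set G).Finite
            · have h1 : ((fun z => ((σ ^ (e k0)) g) * z) '' (stabilizer G p : Set G)).Finite :=
                hfin.image _
              refine (h1.preimage hxinj.injOn).subset ?_
              intro k hk
              exact ⟨_, hcos k hk, by group⟩
            · have h1 := hSf _ ⟨p, hfin, rfl⟩ ((σ ^ (e k0)) g)
              refine (h1.preimage (f := e) e.injective.injOn).subset ?_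
              intro k hk
              exact ⟨heS k, Subgroup.le_normalizer (hcos k hk)⟩
          · convert Set.finite_empty (α := ℕ)
            ext k
            simp only [Set.mem_ofPred_eq, Set.mem_empty_iff_false, iff_false]
            exact fun h => hne ⟨k, h⟩) M
      refine ⟨fun k => e (n k), fun c hc => ?_⟩
      choose c' hc' hc'' using fun k : Fin M => hit (e (n k)) g
      have h3 : ∀ k, ‖c k * c' k‖ ≤ 1 := fun k => by
        rw [norm_mul, hc' k, mul_one]; exact hc k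
      have h2 := hn (fun k => ((‖c k * c' k‖ : ℝ) : ℂ)) (fun k => by
        rw [Complex.norm_real, norm_norm]; exact h3 k)
      have h4 := hu.norm_sum_le (fun k => (σ ^ (e (n k))) g) (fun k => c k * c' k)
        (by positivity) h2
      refine le_trans (le_of_eq ?_) h4
      congr 1
      refine Finset.sum_congr rfl fun k _ => ?_
      rw [hc'' k, smul_smul]
    · have hinv' : ∀ x, (σ ^ m) x ∈ E ↔ x ∈ E := by
        intro x
        have h1 : (σ ^ m) x ∈ (σ ^ m) • E ↔ x ∈ E :=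
          Subgroup.smul_mem_pointwise_smul_iff (a := σ ^ m)
        rwa [hEm] at h1
      exact Or.inl (proj_orb hP (hσ E hE m hm hinv' g hgE).nt)
  · obtain ⟨i, j, hij, hne⟩ : ∃ i j : ℕ, (σ ^ i) g = (σ ^ j) g ∧ i ≠ j := by
      simpa [Function.Injective] using hinj
    wlog hlt : i < j generalizing i j
    · exact this j i hij.symm hne.symm (by omega)
    obtain ⟨m, rfl⟩ : ∃ m, j = i + m := ⟨j - i, by omega⟩
    have h1 : (σ ^ m) g = g := by
      rw [pow_add, MulAut.mul_apply] at hij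
      exact ((σ ^ i).injective hij).symm
    have h2 : g⁻¹ * (σ ^ m) g = 1 := by rw [h1, inv_mul_cancel]
    refine Or.inl (proj_orb hP (Pool.Agent.P8H72.RH.nt_of σ g ⊥ inferInstance m (by omega)
      (fun x hx => ?_) ?_ ⟨0, h2⟩))
    · rw [Subgroup.mem_bot] at hx ⊢
      rw [hx, map_one]
    · rw [h2]; exact Subgroup.one_mem _

/-- entropy zero: the returns are of nilpotent type -/
theorem ret_of (hNF : S_NFR) (hNF2 : S_NFR2) (hDI : Pool.Agent.P8H24.PG.S_DI) (hR : S_RET)
    {u : G → A} {τ : A →L[ℂ] ℂ}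
    (hu : RedAlg u τ) (hmul : ∀ g h, u (g * h) = u g * u h) {Y : Type} [NormedAddCommGroup Y]
    [NormedSpace ℂ Y] (π : A →L[ℂ] Y) (hπ : ∀ a, ‖π a‖ = ‖a‖) (σ : MulAut G) (α : A →⋆ₐ[ℂ] A)
    (hα : ∀ g, ∃ c : ℂ, ‖c‖ = 1 ∧ α (u g) = c • u (σ g))
    (hLR : ∀ g, Pool.Agent.P8H24.PG.LowRank π α (u g)) (hsol : ∀ E ∈ Fam G X, VSol E) :
    Ret X σ := by
  intro E hE m hm hEm g hg
  have hEs := hsol E hE
  have hq := hR G σ m hm E hEs hEm g hg
    (lqr hNF hNF2 hDI G A Y u τ hu hmul π hπ σ α hα hLR m hm E hEs)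
    (lqr hNF hNF2 hDI G A Y u τ hu hmul π hπ σ α hα hLR m hm _ ?_)
  · obtain ⟨q, hq, hk, hn⟩ := hq
    exact ⟨q, hq, hk, Group.IsNilpotent.isVirtuallyNilpotent hn⟩
  · obtain ⟨H, hH, hi, hs⟩ := hEs
    refine ⟨H.map (MulAut.conj g).toMonoidHom, Subgroup.map_mono hH, ?_, ?_⟩
    · rw [Subgroup.relIndex_map_map_of_injective _ _ (MulAut.conj g).injective]
      exact hi
    · exact Group.isSolvable_of_surjective ((MulAut.conj g).toMonoidHom.subgroupMap_surjective H)

end Pool.Agent.P8H24.PR
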