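import Pool.Agent.P8H24.PR.Stm
import Pool.Agent.P8H24.PG.Core
import Pool.Agent.P8H4.PG.Gr1

/-!
# Package LQR: local quasi-unipotence from subexponential rank, reduced C*-algebras
-/

set_option autoImplicit false

open Finset Filter Topology
open scoped commutatorElement

namespace Pool.Agent.P8H24.PR

open Pool.Agent.P8H24.PG Pool.Agent.P8H4.PG
open Pool.Agent.W726.NS (RedAlg)

theorem VSol.mono {G : Type} [Group G] {K E : Subgroup G} (hE : VSol E) (h : K ≤ E) : VSol K := by
  obtain ⟨H, hH, hi, hs⟩ := hE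
  refine ⟨H ⊓ K, inf_le_right, ?_, ?_⟩
  · have h1 : (H ⊓ K).relIndex K = H.relIndex K := Subgroup.inf_relIndex_right H K
    rw [h1]
    exact Subgroup.relIndex_ne_zero_trans hi (by
      intro h2
      have h3 : E.relIndex K = 1 := Subgroup.relIndex_eq_one.2 h
      rw [h2] at h3
      exact zero_ne_one h3)
  · exact Group.isSolvable_of_isSolvable_injective
      (Subgroup.inclusion_injective (inf_le_left : H ⊓ K ≤ H))

theorem pow_iter {G : Type} [Group G] (σ : MulAut G) (m i : ℕ) (x : G) :
    ((σ ^ m : MulAut G)^[i]) x = (σ ^ (m * i)) x := by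
  induction i with
  | zero => rw [mul_zero, pow_zero]; rfl
  | succ i ih =>
    rw [Function.iterate_succ_apply', ih, mul_add, mul_one, add_comm, pow_add, MulAut.mul_apply]

theorem lqr (hNF : S_NFR) (hNF2 : S_NFR2) (hDI : S_DI) : S_LQR := by
  classical
  intro G A Y _ _ _ _ u τ hu hmul π hπ σ α hα hLR m hm E hE K hKE hK x hx
  have hKs : VSol K := hE.mono hKE
  have hA : Nontrivial A := by
    refine ⟨⟨1, 0, fun h => ?_⟩⟩
    have h1 := hu.one
    rw [h, map_zero] at h1
    exact zero_ne_one h1
  have hub : ∀ x : G, ‖u x‖ = 1 := fun x => CStarRing.norm_of_mem_unitary (hu.unit x)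
  have hu0 : ∀ x : G, u x ≠ 0 := fun x h => by
    have := hub x
    rw [h, norm_zero] at this
    exact zero_ne_one this
  -- phases
  have hph : ∀ (g : G) (j : ℕ), ∃ c : ℂ, ‖c‖ = 1 ∧ (α^[j]) (u g) = c • u ((σ ^ j) g) := by
    intro g j
    induction j with
    | zero => exact ⟨1, norm_one, by rw [one_smul, pow_zero]; rfl⟩
    | succ j ih =>
      obtain ⟨c, hc1, hc2⟩ := ih
      obtain ⟨d, hd1, hd2⟩ := hα ((σ ^ j) g)
      refine ⟨c * d, by rw [norm_mul, hc1, hd1, one_mul], ?_⟩
      rw [Function.iterate_succ_apply', hc2, map_smul, hd2, smul_smul, pow_succ', MulAut.mul_apply]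
  choose p hp1 hp2 using hph
  have hpm : ∀ g h j, p (g * h) j = p g j * p h j := fun g h j => by
    have h1 : (α^[j]) (u (g * h)) = (α^[j]) (u g) * (α^[j]) (u h) := by
      rw [hmul, iterate_map_mul]
    rw [hp2, hp2, hp2, smul_mul_smul_comm, ← hmul, ← map_mul] at h1
    exact smul_left_injective ℂ (hu0 _) h1
  have hp1' : ∀ j, p 1 j = 1 := fun j => by
    have h1 := hpm 1 1 j
    rw [mul_one] at h1
    have h2 : p 1 j ≠ 0 := by
      intro h
      have := hp1 1 j
      rw [h, norm_zero] at this
      exact zero_ne_one this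
    exact (mul_eq_left₀ h2).1 h1.symm
  let F : ℕ → (G →* ℂ) := fun j =>
    { toFun := fun g => p g j, map_one' := hp1' j, map_mul' := fun g h => hpm g h j }
  set s : G ≃* G := σ ^ m with hs
  -- the orbits in K
  have hsub : ∀ (i : ℕ) (y : K), ((((res s K hK)^[i]) y : K) : G) = (σ ^ (m * i)) (y : G) := by
    intro i
    induction i with
    | zero => intro y; rw [mul_zero, pow_zero]; rfl
    | succ i ih =>
      intro y
      rw [Function.iterate_succ_apply', mul_add, mul_one, add_comm (m * i) m, pow_add,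
        MulAut.mul_apply, ← ih]
      rfl
  have hpr : ∀ (i : ℕ) (y : K), pr K (((res s K hK)^[i]) y) = ((fab s K hK)^[i]) (pr K y) := by
    intro i
    induction i with
    | zero => intro y; rfl
    | succ i ih =>
      intro y
      rw [Function.iterate_succ_apply', Function.iterate_succ_apply', ← ih, fab_pr]
  let q : G → Mab K := fun x => if hx : x ∈ K then pr K ⟨x, hx⟩ else 0
  have hqc : ∀ y : K, q (y : G) = pr K y := fun y => dif_pos y.2
  have hq : ∀ x ∈ K, ∀ y ∈ K, q (x * y) = q x + q y := by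
    intro x hx y hy
    have h1 := hqc (⟨x, hx⟩ * ⟨y, hy⟩)
    rw [pr_mul] at h1
    rw [← hqc ⟨x, hx⟩, ← hqc ⟨y, hy⟩] at h1
    exact h1
  have key := hDI (Mab K) (fab s K hK) ?_ ?_ (pr K ⟨x, hx⟩)
  · obtain ⟨m', hm', k, hk⟩ := key
    obtain ⟨y, hy1, hy2⟩ := diff_pr s K hK m' k ⟨x, hx⟩
    refine ⟨m', hm', k, ?_⟩
    rw [hk] at hy2
    have h3 := pr_eq_zero K y hy2
    rw [hy1] at h3
    have h4 : diff s.toMonoidHom m' = df σ (m * m') := by
      funext z
      show z⁻¹ * ((s : G → G)^[m']) z = z⁻¹ * (σ ^ (m * m')) z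
      rw [← pow_iter]
    rw [← h4]
    exact h3
  · intro L w hL hw
    obtain ⟨y, rfl⟩ := pr_surj K w
    refine core π hπ α (u (y : G)) (hLR _) (fun j => ?_) (m * L) (Nat.mul_pos hm hL)
      fun n s' hs' => ?_
    · rw [hp2, norm_smul, hp1, one_mul]
      exact (hub _).le
    obtain ⟨ρ, hρ1, hρ2⟩ := hNF G A (Mab K) u τ hu hmul K hKs q hq n
      (fun i => (((res s K hK)^[L * i]) y : K))
      (fun i => (((res s K hK)^[L * i]) y).2)
      (fun a ha h => by
        refine hw n a ha ?_
        rw [← h]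
        refine Finset.sum_congr rfl fun j _ => ?_
        rw [hqc, hpr])
      (fun i => (s' i : ℂ) * p (y : G) (m * L * i))
      (fun i => by
        rw [norm_mul, hp1, mul_one, Complex.norm_real]
        rcases hs' i with h | h <;> rw [h] <;> simp)
    refine ⟨ρ, hρ1, fun i hi => ?_⟩
    have h1 := hρ2 i hi
    rw [hp2, map_smul, smul_eq_mul, ← mul_assoc]
    rw [hsub, ← mul_assoc] at h1
    exact h1
  · rintro w ⟨hw2, hw⟩
    obtain ⟨y, rfl⟩ := pr_surj K w
    have hpm1 : ∀ j, p (y : G) j = 1 ∨ p (y : G) j = -1 := by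
      intro j
      have h1 : pr K (y * y) = 0 := by
        rw [pr_mul, ← hw2, two_smul]
      have h2 := pr_eq_zero K (y * y) h1
      have h3 : (⁅K, K⁆ : Subgroup G) ≤ ((F j).toHomUnits).ker :=
        (Subgroup.commutator_mono le_top le_top).trans (Abelianization.commutator_subset_ker _)
      have h4 := h3 h2
      rw [MonoidHom.mem_ker] at h4
      have h5 : p ((y : G) * (y : G)) j = 1 := by
        have := congrArg (fun z : ℂˣ => (z : ℂ)) h4
        exact this
      rw [hpm] at h5
      exact mul_self_eq_one_iff.1 h5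
    refine core π hπ α (u (y : G)) (hLR _) (fun j => ?_) m hm fun n s' hs' => ?_
    · rw [hp2, norm_smul, hp1, one_mul]
      exact (hub _).le
    obtain ⟨ρ, hρ1, hρ2⟩ := hNF2 G A (Mab K) u τ hu hmul K hKs q hq n
      (fun i => (((res s K hK)^[i]) y : K))
      (fun i => (((res s K hK)^[i]) y).2)
      (fun i => by
        rw [hqc, hpr]
        have h1 : ∀ z : Mab K, (2 : ℤ) • z = 0 → (2 : ℤ) • (fab s K hK) z = 0 := fun z hz => by
          rw [← map_zsmul, hz, map_zero]
        induction i with
        | zero => exact hw2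
        | succ i ih =>
          rw [Function.iterate_succ_apply']
          exact h1 _ ih)
      (fun a ha h => by
        refine hw n a ha ?_
        rw [← h]
        refine Finset.sum_congr rfl fun j _ => ?_
        rw [hqc, hpr])
      (fun i => (s' i : ℂ) * p (y : G) (m * i))
      (fun i => by
        rcases hs' i with h | h <;> rcases hpm1 (m * i) with h' | h' <;> rw [h, h'] <;> simp)
    refine ⟨ρ, hρ1, fun i hi => ?_⟩
    have h1 := hρ2 i hi
    rw [hp2, map_smul, smul_eq_mul, ← mul_assoc]
    rw [hsub] at h1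
    exact h1

end Pool.Agent.P8H24.PR
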