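import Pool.Agent.P8H24.PR.Stm
import Pool.Agent.P8H72.RH.Rel

/-!
# Package REL, first part: points fixed by abelian normal subgroups
-/

set_option autoImplicit false
set_option linter.unusedSectionVars false

namespace Pool.Agent.P8H24.PR

open Set Filter Topology MulAction
open scoped Pointwise commutatorElement
open Pool.Agent.W726.NS (ConvergenceAction Ep mem_Ep Ep_le_stabilizer)
open Pool.Agent.P8H72.RH (not_fin_pow not_fin_conj fix_le_two fix_three pow_fix)

variable {G : Type} [Group G]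

/-- torsion-free and solvable -/
def TFS (Γ : Subgroup G) : Prop := Group.IsSolvable Γ ∧ ∀ x ∈ Γ, IsOfFinOrder x → x = 1

/-- a nontrivial solvable group has a nontrivial abelian normal subgroup -/
theorem exists_ab {Γ : Subgroup G} (hs : Group.IsSolvable Γ) (h1 : Γ ≠ ⊥) :
    ∃ B : Subgroup G, B ≤ Γ ∧ B ≠ ⊥ ∧ (∀ x ∈ B, ∀ y ∈ B, x * y = y * x) ∧
      ∀ x ∈ Γ, ∀ z ∈ B, x * z * x⁻¹ ∈ B := by
  classical
  have hex : ∃ n, derivedSeries Γ n = ⊥ := hs.solvable
  have hn := Nat.find_spec hex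
  have h0 : Nat.find hex ≠ 0 := by
    intro h
    rw [h, derivedSeries_zero] at hn
    apply h1
    rw [eq_bot_iff]
    intro x hx
    have h2 : (⟨x, hx⟩ : Γ) ∈ (⊤ : Subgroup Γ) := Subgroup.mem_top _
    rw [hn, Subgroup.mem_bot] at h2
    rw [Subgroup.mem_bot]
    exact congrArg Subtype.val h2
  obtain ⟨n, hn'⟩ := Nat.exists_eq_succ_of_ne_zero h0
  have hne : derivedSeries Γ n ≠ ⊥ := Nat.find_min hex (by omega)
  rw [hn'] at hn
  refine ⟨(derivedSeries Γ n).map Γ.subtype, ?_, ?_, ?_, ?_⟩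
  · rintro _ ⟨y, -, rfl⟩
    exact y.2
  · intro h
    apply hne
    rwa [Subgroup.map_eq_bot_iff_of_injective _ Γ.subtype_injective] at h
  · rintro _ ⟨x, hx, rfl⟩ _ ⟨y, hy, rfl⟩
    have h2 : ⁅x, y⁆ ∈ derivedSeries Γ (n + 1) := Subgroup.commutator_mem_commutator hx hy
    rw [hn, Subgroup.mem_bot] at h2
    have h3 := commutatorElement_eq_one_iff_mul_comm.mp h2
    exact congrArg Subtype.val h3
  · rintro x hx _ ⟨z, hz, rfl⟩
    have hN : (derivedSeries Γ n).Normal := inferInstance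
    exact ⟨_, hN.conj_mem z hz ⟨x, hx⟩, rfl⟩

variable {X : Type} [TopologicalSpace X] [CompactSpace X] [T2Space X] [MulAction G X]

/-- convergence of the inverses -/
theorem inv_conv {g : ℕ → G} {a b : X}
    (h : ∀ U ∈ 𝓝 a, ∀ V ∈ 𝓝 b, ∀ᶠ n in atTop, ∀ p : X, p ∉ V → g n • p ∈ U) {x : X} (hx : x ≠ a) :
    Tendsto (fun n => (g n)⁻¹ • x) atTop (𝓝 b) := by
  rw [tendsto_def]
  intro V hV
  have hU : ({x}ᶜ : Set X) ∈ 𝓝 a := isOpen_compl_singleton.mem_nhds (fun h1 => hx h1.symm)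
  filter_upwards [h _ hU V hV] with n hn
  show (g n)⁻¹ • x ∈ V
  by_contra hc
  have h1 := hn _ hc
  rw [smul_inv_smul] at h1
  exact h1 rfl

theorem pt_conv {g : ℕ → G} {a b : X}
    (h : ∀ U ∈ 𝓝 a, ∀ V ∈ 𝓝 b, ∀ᶠ n in atTop, ∀ p : X, p ∉ V → g n • p ∈ U) {x : X} (hx : x ≠ b) :
    Tendsto (fun n => g n • x) atTop (𝓝 a) := by
  rw [tendsto_def]
  intro U hU
  have hV : ({x}ᶜ : Set X) ∈ 𝓝 b := isOpen_compl_singleton.mem_nhds (fun h1 => hx h1.symm)
  filter_upwards [h U hU _ hV] with n hn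
  exact hn x (by simp)

theorem inv_fix {h : G} {p : X} (hp : h • p = p) : h⁻¹ • p = p := by
  rw [inv_smul_eq_iff, hp]

theorem not_fin_inv {h : G} (hh : ¬ IsOfFinOrder h) : ¬ IsOfFinOrder h⁻¹ := by
  rwa [isOfFinOrder_inv_iff]

/-- powers of an element with two fixed points -/
theorem conv_pow (hG : ConvergenceAction G X) {κ : G} (hκ : ¬ IsOfFinOrder κ) {p q : X}
    (hpq : p ≠ q) (hp : κ • p = p) (hq : κ • q = q) :
    ∃ c : G, (c = κ ∨ c = κ⁻¹) ∧ ∃ φ : ℕ → ℕ, StrictMono φ ∧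
      ∀ x : X, x ≠ p → Tendsto (fun i => c ^ φ i • x) atTop (𝓝 q) := by
  obtain ⟨hcont, hconv⟩ := hG
  obtain ⟨φ, hφ, a, b, hab⟩ := hconv (fun n : ℕ => κ ^ n)
    (injective_pow_iff_not_isOfFinOrder.mpr hκ)
  have key : ∀ r : X, κ • r = r → r ≠ b → a = r := by
    intro r hr hrb
    have h1 := pt_conv hab hrb
    have h2 : (fun n => (fun n : ℕ => κ ^ n) (φ n) • r) = fun _ => r := by
      funext n
      exact pow_fix hr _
    rw [h2] at h1
    exact tendsto_nhds_unique h1 tendsto_const_nhds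
  by_cases hb : p = b
  · have ha : a = q := key q hq (fun h => hpq (hb.trans h.symm))
    subst hb ha
    exact ⟨κ, Or.inl rfl, φ, hφ, fun x hx => pt_conv hab hx⟩
  · have ha : a = p := key p hp hb
    have hb' : b = q := by
      by_contra h
      exact hpq ((key q hq (fun h1 => h h1.symm)).symm.trans ha).symm
    subst ha hb'
    refine ⟨κ⁻¹, Or.inr rfl, φ, hφ, fun x hx => ?_⟩
    have h1 := inv_conv hab hx
    refine h1.congr fun n => ?_
    rw [inv_pow]

/-- an abelian group normalised by an element with two fixed points -/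
theorem fixB [Infinite X] (hG : ConvergenceAction G X) {p q : X} (hpq : p ≠ q) {B : Subgroup G}
    (hab : ∀ x ∈ B, ∀ y ∈ B, x * y = y * x) {κ : G}
    (hκ : ∀ y ∈ B, κ * y * κ⁻¹ ∈ B) (hκ' : ∀ y ∈ B, κ⁻¹ * y * κ ∈ B) (hκi : ¬ IsOfFinOrder κ)
    (hκp : κ • p = p) (hκq : κ • q = q) {z : G} (hz : z ∈ B) (hzp : z • p = p) :
    ∃ r, r ≠ p ∧ z • r = r := by
  by_contra hcon
  push Not at hcon
  have hzq : z • q ≠ q := hcon q (Ne.symm hpq)
  have hzqp : z • q ≠ p := fun h => hpq (smul_left_cancel z (by rw [h, hzp])).symm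
  obtain ⟨c, hc, φ, hφ, hcon1⟩ := conv_pow hG hκi hpq hκp hκq
  have hcB : ∀ y ∈ B, c * y * c⁻¹ ∈ B := by
    rcases hc with rfl | rfl
    · exact hκ
    · intro y hy
      rw [inv_inv]
      exact hκ' y hy
  have hci : ¬ IsOfFinOrder c := by
    rcases hc with rfl | rfl
    · exact hκi
    · exact not_fin_inv hκi
  have hcp : c • p = p := by
    rcases hc with rfl | rfl
    · exact hκp
    · exact inv_fix hκp
  have hcq : c • q = q := by
    rcases hc with rfl | rfl
    · exact hκq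
    · exact inv_fix hκq
  have hcn : ∀ (n : ℕ), ∀ y ∈ B, c ^ n * y * (c ^ n)⁻¹ ∈ B := by
    intro n
    induction n with
    | zero => intro y hy; simpa using hy
    | succ n ih =>
      intro y hy
      have h1 := hcB _ (ih y hy)
      have h2 : c ^ (n + 1) * y * (c ^ (n + 1))⁻¹ = c * (c ^ n * y * (c ^ n)⁻¹) * c⁻¹ := by
        rw [pow_succ']
        group
      rw [h2]
      exact h1
  set w : ℕ → G := fun i => c ^ φ i * z * (c ^ φ i)⁻¹ with hw
  have hwB : ∀ i, w i ∈ B := fun i => hcn _ z hz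
  have hwq : ∀ i, w i • q = c ^ φ i • (z • q) := by
    intro i
    show (c ^ φ i * z * (c ^ φ i)⁻¹) • q = _
    rw [mul_smul, mul_smul, inv_fix (pow_fix hcq _)]
  have hwq' : Tendsto (fun i => w i • q) atTop (𝓝 q) := by
    refine (hcon1 (z • q) hzqp).congr fun i => (hwq i).symm
  have hne : ∀ n d : ℕ, 0 < d → c ^ n * z * (c ^ n)⁻¹ ≠ c ^ (n + d) * z * (c ^ (n + d))⁻¹ := by
    intro n d hd he
    have h1 : z = c ^ d * z * (c ^ d)⁻¹ := by
      have h2 : c ^ n * z * (c ^ n)⁻¹ = c ^ n * (c ^ d * z * (c ^ d)⁻¹) * (c ^ n)⁻¹ := by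
        rw [he, pow_add]
        group
      exact mul_left_cancel (mul_right_cancel h2)
    have h3 : c ^ d • (z • q) = z • q := by
      have h4 : (c ^ d * z * (c ^ d)⁻¹) • q = c ^ d • (z • q) := by
        rw [mul_smul, mul_smul, inv_fix (pow_fix hcq _)]
      rw [← h4, ← h1]
    rcases fix_three hG (not_fin_pow hci hd) hpq (pow_fix hcp d) (pow_fix hcq d) h3 with h5 | h5
    · exact hzqp h5
    · exact hzq h5
  have hwinj : Function.Injective w := by
    intro i j hij
    by_contra hc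
    rcases lt_or_gt_of_ne hc with h | h
    · have h1 := hφ h
      obtain ⟨d, hd⟩ := Nat.exists_eq_add_of_lt h1
      refine hne (φ i) (d + 1) (by omega) ?_
      have : w i = w j := hij
      rw [hw] at this
      simp only at this
      rw [this, hd, add_assoc]
    · have h1 := hφ h
      obtain ⟨d, hd⟩ := Nat.exists_eq_add_of_lt h1
      refine hne (φ j) (d + 1) (by omega) ?_
      have : w i = w j := hij
      rw [hw] at this
      simp only at this
      rw [← this, hd, add_assoc]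
  obtain ⟨hcont, hconv⟩ := id hG
  obtain ⟨φ', hφ', a', b', hab'⟩ := hconv w hwinj
  obtain ⟨x, hx⟩ : ∃ x : X, x ∉ ({b', z⁻¹ • b'} : Set X) :=
    (Set.toFinite ({b', z⁻¹ • b'} : Set X)).infinite_compl.nonempty
  have hx1 : x ≠ b' := fun h => hx (by rw [h]; exact Set.mem_insert _ _)
  have hx2 : z • x ≠ b' := fun h => hx (by
    rw [← h, inv_smul_smul]
    exact Set.mem_insert_of_mem _ rfl)
  have hcomm : ∀ i, ∀ y : X, w i • (z • y) = z • (w i • y) := by
    intro i y
    rw [← mul_smul, ← mul_smul, hab _ (hwB i) _ hz]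
  have hcomm' : ∀ i, ∀ y : X, (w i)⁻¹ • (z • y) = z • ((w i)⁻¹ • y) := by
    intro i y
    rw [← mul_smul, ← mul_smul, hab _ (B.inv_mem (hwB i)) _ hz]
  have ha' : a' = p := by
    have h1 : Tendsto (fun n => w (φ' n) • (z • x)) atTop (𝓝 a') := pt_conv hab' hx2
    have h2 : Tendsto (fun n => z • (w (φ' n) • x)) atTop (𝓝 (z • a')) :=
      ((hcont z).tendsto a').comp (pt_conv hab' hx1)
    have h3 : z • a' = a' := by
      refine tendsto_nhds_unique h2 (h1.congr fun n => hcomm _ _)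
    by_contra h4
    exact hcon a' h4 h3
  have hb' : b' = q := by
    by_contra h
    have h1 : Tendsto (fun n => w (φ' n) • q) atTop (𝓝 a') := pt_conv hab' (fun h1 => h h1.symm)
    have h2 : Tendsto (fun n => w (φ' n) • q) atTop (𝓝 q) := hwq'.comp hφ'.tendsto_atTop
    exact hpq (ha'.symm.trans (tendsto_nhds_unique h1 h2))
  have h1 : Tendsto (fun n => (w (φ' n))⁻¹ • (z • q)) atTop (𝓝 b') :=
    inv_conv hab' (by rw [ha']; exact hzqp)
  have h2 : Tendsto (fun n => z • ((w (φ' n))⁻¹ • q)) atTop (𝓝 (z • b')) :=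
    ((hcont z).tendsto b').comp (inv_conv hab' (by rw [ha']; exact Ne.symm hpq))
  have h3 : z • b' = b' := tendsto_nhds_unique h2 (h1.congr fun n => hcomm' _ _)
  rw [hb'] at h3
  exact hzq h3

end Pool.Agent.P8H24.PR
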