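import Mathlib
import Pool.Agent.P8H24.PG.Stm2
import Pool.Agent.W726.NS.Abs
import Pool.Agent.W726.NS.Dyn

/-!
# Project PR (part 3 of PG): reduced C*-algebras, entropy zero implies Möbius disjoint

`G` is a countable convergence group (e.g. relatively hyperbolic) whose point stabilisers contain
torsion-free SOLVABLE subgroups of finite index, `A` the reduced C*-algebra, `α` covers an
automorphism `σ` of `G`.  If `ht(α) = 0` then `α` is Möbius disjoint.  Packages: FOL, VEC, NFR, NFR2,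
LQR (analysis), PAIR, RET (groups), REL (convergence groups).
-/

set_option autoImplicit false

open Finset Filter Topology
open scoped commutatorElement Pointwise

namespace Pool.Agent.P8H24.PR

open Pool.Agent.P8H24.PG
open Pool.Agent.W726.NS (RedAlg ConvergenceAction)

/-- the subgroup `K` contains a solvable subgroup of finite index -/
def VSol {G : Type} [Group G] (K : Subgroup G) : Prop :=
  ∃ H : Subgroup G, H ≤ K ∧ H.relIndex K ≠ 0 ∧ Group.IsSolvable H

/-- the (left) Følner condition for the subgroup `L` -/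
def Fol {G : Type} [Group G] (L : Subgroup G) : Prop :=
  ∀ (S : Finset G), (∀ x ∈ S, x ∈ L) → ∀ ε : ℝ, 0 < ε → ∃ F : Set G, F.Finite ∧ F.Nonempty ∧
    F ⊆ L ∧ ∀ y ∈ S, (1 - ε) * (F.ncard : ℝ) ≤ (({k ∈ F | y * k ∈ F} : Set G).ncard : ℝ)

/-- Package FOL. Virtually solvable groups satisfy the Følner condition.

Proof. The library has `Pool.Agent.TH468.BE.Folner` (right Følner condition with a bound `φ` for the
size), `exists_comm` (abelian groups), `Folner.ext` (extensions), all in `Pool.Agent.TH468.BE.Fol`. By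
induction on `n`: a group `B` with `derivedSeries B n = ⊥` satisfies `Folner φ B` for some `φ`
(`N = commutator B`, or `N` = the last derived subgroup; the quotient or `N` is abelian). A finite group
satisfies it with `F = univ`. For `H ≤ L` solvable of finite index take the normal core of `H` in `L` and
`Folner.ext`. Passage to `Fol`: apply the right condition to the inverses of the elements of `S` and `1`
(`t` large), and replace the set `F` by the set of its inverses: `|F G| ≤ (1 + 1/t) |F|` and `1 ∈ G`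
give `|{k ∈ F : k g ∈ F}| ≥ (1 - 1/t) |F|` for `g ∈ G`. -/
def S_FOL : Prop :=
  ∀ (G : Type) [Group G] (L : Subgroup G), VSol L → Fol L

/-- Package VEC. Vector states of the quasi-regular representation of `G / L`, `L` amenable, on the
reduced C*-algebra.

Proof. For a finite nonempty `F ⊆ L` let `x = |I|^(-1/2) |F|^(-1/2) ∑_{i ∈ I} ∑_{h ∈ F} C i • u (W i * h)`
and `ρ_F a = τ (x* a x)`; since the `W i * h` are distinct, `τ (x* x) = 1`, and `τ` is positive
(`RedAlg.pos`), so `‖ρ_F‖ ≤ 1` (Cauchy-Schwarz for the positive functional `τ`: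
`|τ (x* a x)| ≤ τ (x* x) ‖a‖`; see `RedAlg` lemmas in `W726/NS/Abs.lean` and `H379R3.CS`, or
`x* (‖a‖² - a* a) x ≥ 0`). `ρ_F (u g) = |I|⁻¹ ∑ᵢⱼ star (C i) * C j * |F|⁻¹ #{(h, k) ∈ F² :
h = y k}`, `y = (W i)⁻¹ g W j`: the last factor is `0` if `y ∉ L` and `≥ 1 - ε`, `≤ 1` if `y ∈ S`.
Take the limit of the `ρ_F` along an ultrafilter on the pairs `(S, 1/(n+1))` (or use the compactness of
the unit ball of the dual in the weak* topology). -/
def S_VEC : Prop :=
  ∀ (G A : Type) [Group G] [CStarAlgebra A] (u : G → A) (τ : A →L[ℂ] ℂ), RedAlg u τ →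
    (∀ g h, u (g * h) = u g * u h) → ∀ L : Subgroup G, Fol L →
    ∀ (ι : Type) (I : Finset ι), I.Nonempty → ∀ (W : ι → G) (C : ι → ℂ), (∀ i ∈ I, ‖C i‖ = 1) →
    (∀ i ∈ I, ∀ j ∈ I, (W i)⁻¹ * W j ∈ L → i = j) →
    ∃ ρ : A →L[ℂ] ℂ, ‖ρ‖ ≤ 1 ∧ ∀ g,
      ρ (u g) = (I.card : ℂ)⁻¹ * ∑ i ∈ I, ∑ j ∈ I, star (C i) * C j *
        Set.indicator (L : Set G) (fun _ => (1 : ℂ)) ((W i)⁻¹ * (g * W j))

/-- Package NFR (may assume FOL and VEC). As `S_NF` (proved in `P8H78/PG/Nf.lean`), for the reduced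
C*-algebra of `G` and a virtually solvable subgroup `K`: the same proof with VEC in place of `vec`
(`kerK K q hq ≤ K` is virtually solvable, so FOL applies). -/
def S_NFR : Prop :=
  ∀ (G A M : Type) [Group G] [CStarAlgebra A] [AddCommGroup M] (u : G → A) (τ : A →L[ℂ] ℂ),
    RedAlg u τ → (∀ g h, u (g * h) = u g * u h) → ∀ (K : Subgroup G), VSol K → ∀ (q : G → M),
    (∀ x ∈ K, ∀ y ∈ K, q (x * y) = q x + q y) → ∀ (n : ℕ) (w : ℕ → G), (∀ j, w j ∈ K) →
    (∀ a : ℕ → ℤ, (∀ j, |a j| ≤ 2) → ∑ j ∈ range n, a j • q (w j) = 0 → ∀ j < n, a j = 0) →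
    ∀ c : ℕ → ℂ, (∀ j, ‖c j‖ = 1) →
    ∃ ρ : A →L[ℂ] ℂ, ‖ρ‖ ≤ 1 ∧ ∀ j < n, 1 / 2 ≤ (c j * ρ (u (w j))).re

/-- Package NFR2 (may assume FOL and VEC). As `S_NF2` (proved in `P8H78/PG/Nf.lean`). -/
def S_NFR2 : Prop :=
  ∀ (G A M : Type) [Group G] [CStarAlgebra A] [AddCommGroup M] (u : G → A) (τ : A →L[ℂ] ℂ),
    RedAlg u τ → (∀ g h, u (g * h) = u g * u h) → ∀ (K : Subgroup G), VSol K → ∀ (q : G → M),
    (∀ x ∈ K, ∀ y ∈ K, q (x * y) = q x + q y) → ∀ (n : ℕ) (w : ℕ → G), (∀ j, w j ∈ K) →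
    (∀ j, (2 : ℤ) • q (w j) = 0) →
    (∀ a : ℕ → ℤ, (∀ j, a j = 0 ∨ a j = 1) → ∑ j ∈ range n, a j • q (w j) = 0 →
      ∀ j < n, a j = 0) →
    ∀ c : ℕ → ℂ, (∀ j, c j = 1 ∨ c j = -1) →
    ∃ ρ : A →L[ℂ] ℂ, ‖ρ‖ ≤ 1 ∧ ∀ j < n, 1 / 2 ≤ (c j * ρ (u (w j))).re

/-- the difference map `x ↦ x⁻¹ σⁿ(x)` -/
def df {G : Type} [Group G] (σ : MulAut G) (n : ℕ) (x : G) : G := x⁻¹ * (σ ^ n) x

/-- `σ^m` acts locally quasi-unipotently on `K / [K, K]`, for each `σ^m`-invariant subgroup `K` of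
`E` -/
def Lqu {G : Type} [Group G] (σ : MulAut G) (m : ℕ) (E : Subgroup G) : Prop :=
  ∀ K : Subgroup G, K ≤ E → (∀ x, (σ ^ m) x ∈ K ↔ x ∈ K) → ∀ x ∈ K, ∃ m' : ℕ, 0 < m' ∧ ∃ k : ℕ,
    (df σ (m * m'))^[k] x ∈ ⁅K, K⁆

/-- Package LQR (helper24; from NFR, NFR2, DI). -/
def S_LQR : Prop :=
  ∀ (G A Y : Type) [Group G] [CStarAlgebra A] [NormedAddCommGroup Y] [NormedSpace ℂ Y] (u : G → A)
    (τ : A →L[ℂ] ℂ), RedAlg u τ → (∀ g h, u (g * h) = u g * u h) → ∀ (π : A →L[ℂ] Y),
    (∀ a, ‖π a‖ = ‖a‖) → ∀ (σ : MulAut G) (α : A →⋆ₐ[ℂ] A),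
    (∀ g, ∃ c : ℂ, ‖c‖ = 1 ∧ α (u g) = c • u (σ g)) → (∀ g, LowRank π α (u g)) →
    ∀ m : ℕ, 0 < m → ∀ E : Subgroup G, VSol E → Lqu σ m E

/-! ### Groups -/

/-- Package PAIR (may assume STEP, which is proved: see `Pool.Agent.P8H24.PG.All`). A chain
`N 0 ≥ N 1 ≥ … ≥ N l = ⊥` of normal subgroups of `S` with abelian factors on which `a` and `b` act
locally quasi-unipotently; `aᵐ = bᵐ` modulo `N 0` for some `m > 0`. Then `⟨aᵐ, bᵐ⟩` is nilpotent for
some `m > 0`.

Proof. As `sol` in `P8H75/PG/Sol.lean` (there `b = g⁻¹ a g`): by induction on `i` there is `m > 0` such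
that `⟨aᵐ, bᵐ⟩` is nilpotent modulo `N i`; step: STEP in `S ⧸ N (i+1)`. -/
def S_PAIR : Prop :=
  ∀ (S : Type) [Group S] (a b : S) (N : ℕ → Subgroup S) (l : ℕ), (∀ i, (N i).Normal) → N l = ⊥ →
    (∀ i, N (i + 1) ≤ N i) → (∀ i, ⁅N i, N i⁆ ≤ N (i + 1)) →
    (∃ m : ℕ, 0 < m ∧ (a ^ m)⁻¹ * b ^ m ∈ N 0) →
    (∀ i, ∀ x ∈ N i, ∃ m : ℕ, 0 < m ∧ ∃ k : ℕ, (dd (a ^ m))^[k] x ∈ N (i + 1)) →
    (∀ i, ∀ x ∈ N i, ∃ m : ℕ, 0 < m ∧ ∃ k : ℕ, (dd (b ^ m))^[k] x ∈ N (i + 1)) →
    ∃ m : ℕ, 0 < m ∧ Group.IsNilpotent (Subgroup.closure {a ^ m, b ^ m})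

/-- Package RET (may assume PAIR). Let `σ^m` map the virtually solvable subgroup `E` onto itself,
`g⁻¹ σ^m(g) ∈ E`, and let `σ^m` be locally quasi-unipotent on the abelian sections of `E` and of
`g E g⁻¹`. Then for some `q > 0` some iterate of `D x = x⁻¹ σ^q(x)` maps `g` to `1` and `D g`, `D² g`, …
generate a nilpotent group.

Proof. `T = G ⋊ ⟨t⟩`, `t` acting by `σ` (as in `P8H75/PG/Vs.lean`, `P8H72/RH/Torus.lean`), `a = t^m`,
`b = g⁻¹ a g = (g⁻¹ σ^m(g)) a`. Both lie in the normaliser `S` of `E` in `T`. As in `exists_char` of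
`P8H75/PG/Vs.lean` let `C` be a normal solvable subgroup of `E` of minimal finite index: it is invariant
under all automorphisms of `E`, so normalised by `S`; `N i` = the `i`-th derived subgroup of `C`
(`chain C i`), as a subgroup of `S` (`subgroupOf`), is normal in `S`. Hypotheses of PAIR: (1) `aⁿ = bⁿ`
modulo `C` for some `n > 0`: `b^n a^(-n) ∈ E` and `x ↦ b x a⁻¹` induces a permutation of the finite group
`E / C` (`b (x c) a⁻¹ = (b x a⁻¹) (a c a⁻¹)`), so some power maps the class of `1` to itself. (2) `a`: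
`Lqu` with `K = chain C i` (invariant under `σ^m`), `(dd (a^m'))^[k] x = (df σ (m m'))^[k] x`. (3) `b`:
`b^m' = g⁻¹ a^m' g`, so `(dd (b^m'))^[k] x = g⁻¹ ((dd (a^m'))^[k] (g x g⁻¹)) g` (`dd_conj_iter`); `Lqu` for
`g K g⁻¹`, which is invariant under `σ^m`: `σ^m(g K g⁻¹) = g e K e⁻¹ g⁻¹` with `e = g⁻¹ σ^m(g) ∈ E`. Then
`D g = g⁻¹ a^n g a^(-n) = b^n a^(-n)` and `D^(i+1) g` is in the `i`-th term of the lower central series of
`⟨aⁿ, bⁿ⟩`, as at the end of `vs`. -/
def S_RET : Prop :=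
  ∀ (G : Type) [Group G] (σ : MulAut G) (m : ℕ), 0 < m → ∀ (E : Subgroup G), VSol E →
    (∀ x, (σ ^ m) x ∈ E ↔ x ∈ E) → ∀ g : G, g⁻¹ * (σ ^ m) g ∈ E → Lqu σ m E →
    Lqu σ m (E.map (MulAut.conj g).toMonoidHom) →
    ∃ q : ℕ, 0 < q ∧ (∃ k : ℕ, (df σ q)^[k] g = 1) ∧
      Group.IsNilpotent (Subgroup.closure {x : G | ∃ i : ℕ, x = (df σ q)^[i + 1] g})

/-! ### Convergence groups -/

/-- the subgroup `H` contains a torsion-free solvable subgroup of finite index -/
def VTFS {G : Type} [Group G] (H : Subgroup G) : Prop :=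
  ∃ Γ : Subgroup G, Γ ≤ H ∧ Γ.relIndex H ≠ 0 ∧ Group.IsSolvable Γ ∧ ∀ x ∈ Γ, IsOfFinOrder x → x = 1

/-- the normaliser of a point stabiliser -/
def Nst (G : Type) [Group G] {X : Type} [MulAction G X] (a : X) : Subgroup G :=
  Subgroup.normalizer ((MulAction.stabilizer G a : Subgroup G) : Set G)

/-- the family of the normalisers of the infinite point stabilisers -/
def Fam (G : Type) [Group G] (X : Type) [MulAction G X] : Set (Subgroup G) :=
  {E | ∃ a : X, (MulAction.stabilizer G a : Set G).Infinite ∧ E = Nst G a}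

/-- Package REL. The family of the normalisers of the infinite point stabilisers of a convergence
group with virtually (torsion-free solvable) point stabilisers: pairwise finite intersections,
countable, invariant under automorphisms, members virtually solvable.

Proof. This is `P8H72/RH/Rel.lean` (fam_disj, fam_countable, fam_smul; there with torsion-free
nilpotent subgroups) with two changes. Let `Γ` be torsion-free and solvable, `Γ ≠ 1`; `B` = its last
nontrivial derived subgroup: abelian, torsion-free, normalised by `Γ` (it replaces the centre).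
(a) `rel_point`: let `z ∈ B`, `z ≠ 1`; by `Ep_le_stabilizer` `B` fixes a point `a`; `Fix(B)` has at most
two points (`fix_le_two`) and `Γ` permutes them, so `x² a = a` for `x ∈ Γ`; so `h^(2n)`, `k^(2n)` fix `a`.
(b) `stab_le`: let `p ≠ q`, `k` of infinite order fix `p` and `q`, `Γ ≤ Stab p` torsion-free solvable of
finite index, `κ = k^j ∈ Γ`, `B` as above, so `B` fixes `p`. Claim: `Γ` fixes `q`.
If `B` fixes some `r ≠ p` then `Γ` permutes the two points of `Fix(B)` and fixes `p`, so it fixes `r`;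
`κ` fixes `p, q, r`, so `r = q` (`fix_three`). So suppose `Fix(B) = {p}`; then `Fix(z) = {p}` for
`1 ≠ z ∈ B` (a second fixed point of `z` would be fixed by `B`, which commutes with `z` and fixes `p`). Fix
such a `z`. The elements `κ⁻ⁿ z κⁿ`, `n ∈ ℤ`, of `B` are distinct: otherwise `z` commutes with some `κ^d`,
`d > 0`, which then fixes `p`, `q` and `z q ≠ p, q`. The convergence property for the sequence `κⁿ` gives a
subsequence converging to a point uniformly off another one, and these are `p` and `q` in some order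
(both are fixed); so for a sequence `κ_i` of distinct powers (positive ones, or negative ones; for the
inverses: if `g_i → a` uniformly off `b` then `g_i⁻¹ x → b` for each `x ≠ a`) `κ_i x → q` for all
`x ≠ p`. Put `w_i = κ_i z κ_i⁻¹ ∈ B`: distinct, and `w_i q = κ_i (z q) → q` as `z q ≠ p`. Pass to a
subsequence: `w_i → a` uniformly off `b`. For `x` with `x, z x ≠ b` (X is infinite):
`z a = lim z w_i x = lim w_i z x = a`, so `a = p`. As `w_i q → q ≠ p` we get `b = q`. So `w_i⁻¹ x → q`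
for `x ≠ p`, and `z q = lim z w_i⁻¹ x = lim w_i⁻¹ (z x) = q` for `x ≠ p` (then `z x ≠ p`), so `q = p`,
a contradiction. The rest of `stab_le` is as before: for `g ∈ Stab p`, `w = (g z g⁻¹)^m ∈ Γ` fixes `p`,
`q` and `g q`, so `g q = q`.
Last clause: by `mem_NN` and `fix_le_two` `Nst G a` acts on the at most two points `p` with
`Stab p = Stab a`, and `Stab a` is the stabiliser of one of them, so it has finite index in `Nst G a`. -/
def S_REL : Prop :=
  ∀ (G : Type) [Group G] [Countable G] (X : Type) [TopologicalSpace X] [CompactSpace X]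
    [T2Space X] [Infinite X] [MulAction G X], ConvergenceAction G X →
    (∀ p : X, VTFS (MulAction.stabilizer G p)) →
    (∀ E ∈ Fam G X, ∀ E' ∈ Fam G X, ((E : Set G) ∩ E').Infinite → E = E') ∧
    (Fam G X).Countable ∧ (∀ (σ : MulAut G), ∀ E ∈ Fam G X, σ • E ∈ Fam G X) ∧
    ∀ E ∈ Fam G X, VSol E

end Pool.Agent.P8H24.PR
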